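import Mathlib

set_option autoImplicit false

open Set

namespace Pool.Agent.Helper781.Build

variable {P I : Type} [LinearOrder I]

theorem rec_exists [WellFoundedLT I] [Nonempty P] (Φ : I → (I → P) → P → Prop)
    (hloc : ∀ ξ g g' v, (∀ ζ, ζ < ξ → g ζ = g' ζ) → Φ ξ g v → Φ ξ g' v)
    (hex : ∀ ξ g, ∃ v, Φ ξ g v) : ∃ h : I → P, ∀ ξ, Φ ξ h (h ξ) := by
  classical
  have wf : WellFounded ((· < ·) : I → I → Prop) := wellFounded_lt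
  let ext : (ξ : I) → ((ζ : I) → ζ < ξ → P) → I → P := fun ξ g ζ =>
    if hζ : ζ < ξ then g ζ hζ else Classical.arbitrary P
  let F : (ξ : I) → ((ζ : I) → ζ < ξ → P) → P := fun ξ g => Classical.choose (hex ξ (ext ξ g))
  let h : I → P := wf.fix F
  refine ⟨h, fun ξ => ?_⟩
  have h1 : h ξ = F ξ (fun ζ _ => h ζ) := wf.fix_eq F ξ
  have h2 : Φ ξ (ext ξ (fun ζ _ => h ζ)) (F ξ (fun ζ _ => h ζ)) :=
    Classical.choose_spec (hex ξ (ext ξ (fun ζ _ => h ζ)))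
  rw [h1]
  refine hloc ξ _ _ _ ?_ h2
  intro ζ hζ
  simp [ext, hζ]

/-- candidates -/
def Cand (N : P → P → Prop) (S : Set P) (ρ : P → I) (h : I → P) (ξ : I) (x : P) : Prop :=
  ρ x ≤ ξ ∧ {ζ | ζ < ξ ∧ h ζ ∈ S ∧ ρ (h ζ) = ζ ∧ N x (h ζ)}.Finite ∧
    ∃ y, y ∈ S ∧ ρ y = ξ ∧ N x y

theorem Cand.congr {N : P → P → Prop} {S : Set P} {ρ : P → I} {g g' : I → P} {ξ : I} {x : P}
    (h : ∀ ζ, ζ < ξ → g ζ = g' ζ) (hc : Cand N S ρ g ξ x) : Cand N S ρ g' ξ x := by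
  refine ⟨hc.1, ?_, hc.2.2⟩
  refine hc.2.1.subset ?_
  rintro ζ ⟨h1, h2, h3, h4⟩
  rw [← h ζ h1] at h2 h3 h4
  exact ⟨h1, h2, h3, h4⟩

theorem build [WellFoundedLT I] [Nonempty P] (N : P → P → Prop) (S : Set P) (ρ : P → I) :
    ∃ h : I → P, ∀ ξ, (∃ y, y ∈ S ∧ ρ y = ξ) →
      (h ξ ∈ S ∧ ρ (h ξ) = ξ ∧ ∀ x, Cand N S ρ h ξ x →
        ∃ x', Cand N S ρ h ξ x' ∧ ρ x' ≤ ρ x ∧ N x' (h ξ)) := by
  have wf : WellFounded ((· < ·) : I → I → Prop) := wellFounded_lt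
  refine rec_exists (fun ξ g v => (∃ y, y ∈ S ∧ ρ y = ξ) →
      (v ∈ S ∧ ρ v = ξ ∧ ∀ x, Cand N S ρ g ξ x →
        ∃ x', Cand N S ρ g ξ x' ∧ ρ x' ≤ ρ x ∧ N x' v)) ?_ ?_
  · intro ξ g g' v hg h hy
    obtain ⟨h1, h2, h3⟩ := h hy
    refine ⟨h1, h2, ?_⟩
    intro x hx
    obtain ⟨x', hx', h4, h5⟩ := h3 x (hx.congr fun ζ hζ => (hg ζ hζ).symm)
    exact ⟨x', hx'.congr hg, h4, h5⟩
  · intro ξ g
    by_cases hne : ∃ y, y ∈ S ∧ ρ y = ξ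
    · by_cases hc : ∃ x, Cand N S ρ g ξ x
      · let T : Set I := {i | ∃ x, Cand N S ρ g ξ x ∧ ρ x = i}
        have hT : T.Nonempty := by
          obtain ⟨x, hx⟩ := hc
          exact ⟨ρ x, x, hx, rfl⟩
        obtain ⟨x', hx', hmin⟩ := wf.min_mem T hT
        obtain ⟨y, hyS, hyξ, hN⟩ := hx'.2.2
        refine ⟨y, fun _ => ⟨hyS, hyξ, ?_⟩⟩
        intro x hx
        refine ⟨x', hx', ?_, hN⟩
        rw [hmin]
        exact wf.min_le (show ρ x ∈ T from ⟨x, hx, rfl⟩)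
      · obtain ⟨y, hyS, hyξ⟩ := hne
        exact ⟨y, fun _ => ⟨hyS, hyξ, fun x hx => (hc ⟨x, hx⟩).elim⟩⟩
    · exact ⟨Classical.arbitrary P, fun h => (hne h).elim⟩

end Pool.Agent.Helper781.Build
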