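import Mathlib

set_option autoImplicit false

open Cardinal Set

namespace Pool.Agent.Helper781.Closure

theorem biUnion_le {α ι : Type} (s : Set ι) (f : ι → Set α) (c : Cardinal.{0}) (hc : ℵ₀ ≤ c)
    (hs : #s ≤ c) (hf : ∀ i ∈ s, #(f i) ≤ c) : #(⋃ i ∈ s, f i : Set α) ≤ c := by
  refine (mk_biUnion_le f s).trans ?_
  have h : (⨆ x : s, #(f x.1)) ≤ c := ciSup_le' (fun i : s => hf i.1 i.2)
  refine (mul_le_mul' hs h).trans ?_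
  rw [mul_eq_self hc]

theorem union_le {α : Type} {s t : Set α} {c : Cardinal.{0}} (hc : ℵ₀ ≤ c)
    (hs : #s ≤ c) (ht : #t ≤ c) : #(s ∪ t : Set α) ≤ c := by
  refine (mk_union_le s t).trans ?_
  refine (add_le_add hs ht).trans ?_
  rw [add_eq_self hc]

variable {P I : Type} [LinearOrder I]

/-- stages of the closure -/
def L (ι : P → I) (R : P → I → P → I) (ζ : I) : ℕ → Set P
  | 0 => {y | ι y ≤ ζ}
  | (n + 1) => L ι R ζ n ∪ ⋃ x ∈ L ι R ζ n, ⋃ ξ ∈ Iic ζ, {y | R x ξ y ≤ ζ}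

theorem L_mono (ι : P → I) (R : P → I → P → I) {ζ ζ' : I} (h : ζ ≤ ζ') (n : ℕ) :
    L ι R ζ n ⊆ L ι R ζ' n := by
  induction n with
  | zero => exact fun y hy => le_trans hy h
  | succ n ih =>
    intro y hy
    rcases hy with hy | hy
    · exact Or.inl (ih hy)
    · right
      simp only [mem_iUnion, mem_ofPred_eq, mem_Iic] at hy ⊢
      obtain ⟨x, hx, ξ, hξ, hy⟩ := hy
      exact ⟨x, ih hx, ξ, le_trans hξ h, le_trans hy h⟩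

theorem L_card (ι : P → I) (R : P → I → P → I) (c : I → Cardinal.{0}) (hc0 : ∀ ξ, ℵ₀ ≤ c ξ)
    (hI : ∀ ξ, #(Iic ξ) ≤ c ξ) (hι : ∀ ξ, #{y | ι y ≤ ξ} ≤ c ξ)
    (hR : ∀ x ξ ζ, ξ ≤ ζ → #{y | R x ξ y ≤ ζ} ≤ c ζ) (ζ : I) (n : ℕ) :
    #(L ι R ζ n) ≤ c ζ := by
  induction n with
  | zero => exact hι ζ
  | succ n ih =>
    refine union_le (hc0 ζ) ih ?_
    refine biUnion_le _ _ _ (hc0 ζ) ih fun x _ => ?_
    exact biUnion_le _ _ _ (hc0 ζ) (hI ζ) fun ξ hξ => hR x ξ ζ hξ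

theorem closure_lemma [WellFoundedLT I] (c : I → Cardinal.{0}) (hc0 : ∀ ξ, ℵ₀ ≤ c ξ)
    (hI : ∀ ξ, #(Iic ξ) ≤ c ξ) (ι : P → I) (hι : ∀ ξ, #{y | ι y ≤ ξ} ≤ c ξ)
    (R : P → I → P → I) (hR : ∀ x ξ ζ, ξ ≤ ζ → #{y | R x ξ y ≤ ζ} ≤ c ζ) :
    ∃ ρ : P → I, (∀ ζ, #{y | ρ y ≤ ζ} ≤ c ζ) ∧
      ∀ x ξ y, ρ y ≤ max (ρ x) (max ξ (R x ξ y)) := by
  have wf : WellFounded ((· < ·) : I → I → Prop) := wellFounded_lt
  let T : P → Set I := fun y => {ζ | ∃ n, y ∈ L ι R ζ n}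
  have hT : ∀ y, (T y).Nonempty := fun y => ⟨ι y, 0, le_refl _⟩
  let ρ : P → I := fun y => wf.min (T y) (hT y)
  have h1 : ∀ y, ρ y ∈ T y := fun y => wf.min_mem (T y) (hT y)
  have h2 : ∀ y ζ, ζ ∈ T y → ρ y ≤ ζ := fun y ζ h => wf.min_le h
  have h3 : ∀ y ζ, ρ y ≤ ζ → ∃ n, y ∈ L ι R ζ n := by
    intro y ζ h
    obtain ⟨n, hn⟩ := h1 y
    exact ⟨n, L_mono ι R h n hn⟩
  refine ⟨ρ, ?_, ?_⟩
  · intro ζ
    have hsub : {y | ρ y ≤ ζ} ⊆ ⋃ n ∈ (univ : Set ℕ), L ι R ζ n := by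
      intro y hy
      obtain ⟨n, hn⟩ := h3 y ζ hy
      exact mem_biUnion (mem_univ n) hn
    refine (mk_le_mk_of_subset hsub).trans ?_
    refine biUnion_le _ _ _ (hc0 ζ) ?_ fun n _ => L_card ι R c hc0 hI hι hR ζ n
    exact (mk_le_aleph0).trans (hc0 ζ)
  · intro x ξ y
    apply h2
    obtain ⟨n, hn⟩ := h3 x (max (ρ x) (max ξ (R x ξ y))) (le_max_left _ _)
    refine ⟨n + 1, Or.inr ?_⟩
    simp only [mem_iUnion, mem_ofPred_eq, mem_Iic]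
    refine ⟨x, hn, ξ, ?_, ?_⟩
    · exact le_trans (le_max_left _ _) (le_max_right _ _)
    · exact le_trans (le_max_right _ _) (le_max_right _ _)

end Pool.Agent.Helper781.Closure
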