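import Mathlib
import Pool.Agent.Helper781.Build

set_option autoImplicit false

open Set

namespace Pool.Agent.Helper781.Countable

open Pool.Agent.Helper781.Build

variable {P : Type}

theorem fact {r : P → P → Prop}
    (hr : ∀ a b c, r a b → r b c → r a c) (wf : WellFounded (fun a b => r b a))
    {A S : Set P} (h : ∀ q ∈ A, q ∉ S → ¬ {y | r q y ∧ y ∈ A}.Finite) :
    ∀ q ∈ A, q ∉ S → ¬ {y | r q y ∧ y ∈ S}.Finite := by
  intro x
  induction x using wf.induction with
  | _ x ih =>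
    intro hA hS hsm
    refine h _ hA hS (hsm.subset ?_)
    rintro y ⟨hy, hyA⟩
    refine ⟨hy, ?_⟩
    by_contra hyS
    refine ih y hy hyA hyS (hsm.subset ?_)
    rintro z ⟨hz, hzS⟩
    exact ⟨hr _ _ _ hy hz, hzS⟩

theorem kernel {r s : P → P → Prop}
    (hr : ∀ a b c, r a b → r b c → r a c) (wr : WellFounded (fun a b => r b a))
    (hs : ∀ a b c, s a b → s b c → s a c) (ws : WellFounded (fun a b => s b a)) :
    ∃ S : Set P, ∀ q, q ∈ S ↔ {y | r q y ∧ y ∈ S}.Finite ∧ {y | s q y ∧ y ∈ S}.Finite := by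
  let B : Set P → Set P := fun A => {a | a ∈ A ∧ ¬ {y | r a y ∧ y ∈ A}.Finite}ᶜ
  let C : Set P → Set P := fun A => {a | a ∈ A ∧ ¬ {y | s a y ∧ y ∈ A}.Finite}ᶜ
  have hB : ∀ A A', A ⊆ A' → B A' ⊆ B A := by
    intro A A' h a ha ha'
    exact ha ⟨h ha'.1, fun hs => ha'.2 (hs.subset fun y hy => ⟨hy.1, h hy.2⟩)⟩
  have hC : ∀ A A', A ⊆ A' → C A' ⊆ C A := by
    intro A A' h a ha ha'
    exact ha ⟨h ha'.1, fun hs => ha'.2 (hs.subset fun y hy => ⟨hy.1, h hy.2⟩)⟩
  let f : Set P →o Set P := ⟨fun A => C (B A), fun A A' h => hC _ _ (hB _ _ h)⟩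
  let A := OrderHom.lfp f
  have hA : C (B A) = A := OrderHom.map_lfp f
  refine ⟨A ∩ B A, fun q => ?_⟩
  have hcov : q ∈ A ∨ q ∈ B A := by
    by_contra hcon
    push Not at hcon
    apply hcon.1
    rw [← hA]
    intro h
    exact hcon.2 h.1
  constructor
  · rintro ⟨h1, h2⟩
    constructor
    · have : {y | r q y ∧ y ∈ A}.Finite := by
        by_contra h3
        exact h2 ⟨h1, h3⟩
      exact this.subset fun y hy => ⟨hy.1, hy.2.1⟩
    · have : {y | s q y ∧ y ∈ B A}.Finite := by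
        by_contra h3
        have h1' := h1
        rw [← hA] at h1'
        exact h1' ⟨h2, h3⟩
      exact this.subset fun y hy => ⟨hy.1, hy.2.2⟩
  · rintro ⟨h1, h2⟩
    by_contra hq
    rcases hcov with hqA | hqB
    · refine fact (S := A ∩ B A) hr wr (A := A) ?_ q hqA hq h1
      intro p hpA hpS hsm
      apply hpS
      refine ⟨hpA, ?_⟩
      intro h
      exact h.2 hsm
    · refine fact (S := A ∩ B A) hs ws (A := B A) ?_ q hqB hq h2
      intro p hpB hpS hsm
      apply hpS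
      refine ⟨?_, hpB⟩
      rw [← hA]
      intro h
      exact h.2 hsm

theorem main_countable [PartialOrder P] [WellFoundedLT P] [WellFoundedGT P] [Infinite P]
    [Countable P] :
    ∃ H : Set P, H.Infinite ∧ (∀ x ∈ H, {h | h ∈ H ∧ (x ≤ h ∨ h ≤ x)}.Subsingleton) ∧
      (∀ x : P, {h | h ∈ H ∧ (x ≤ h ∨ h ≤ x)}.Subsingleton ∨
      {h | h ∈ H ∧ (x ≤ h ∨ h ≤ x)}.Infinite) := by
  classical
  obtain ⟨S, hS⟩ := kernel (P := P) (r := fun a b => a < b) (s := fun a b => b < a)
    (fun a b c h1 h2 => lt_trans h1 h2) wellFounded_gt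
    (fun a b c h1 h2 => lt_trans h2 h1) wellFounded_lt
  have hS2 : ∀ q, q ∈ S ↔ {y | (q < y ∨ y < q) ∧ y ∈ S}.Finite := by
    intro q
    rw [hS]
    constructor
    · rintro ⟨h1, h2⟩
      refine (h1.union h2).subset ?_
      rintro y ⟨hy | hy, hyS⟩
      · exact Or.inl ⟨hy, hyS⟩
      · exact Or.inr ⟨hy, hyS⟩
    · intro h
      exact ⟨h.subset fun y hy => ⟨Or.inl hy.1, hy.2⟩, h.subset fun y hy => ⟨Or.inr hy.1, hy.2⟩⟩
  have hSinf : S.Infinite := by
    intro hfin
    have huniv : S = univ := by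
      ext q
      simp only [mem_univ, iff_true]
      rw [hS2]
      exact hfin.subset fun y hy => hy.2
    rw [huniv] at hfin
    exact infinite_univ hfin
  let A : P → Set P := fun x => if x ∈ S then S else {y | (x < y ∨ y < x) ∧ y ∈ S}
  have hAinf : ∀ x, (A x).Infinite := by
    intro x
    by_cases hx : x ∈ S
    · simp only [A, if_pos hx]
      exact hSinf
    · simp only [A, if_neg hx]
      intro h
      exact hx ((hS2 x).2 h)
  have hAS : ∀ x, A x ⊆ S := by
    intro x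
    by_cases hx : x ∈ S
    · simp only [A, if_pos hx]
      exact subset_rfl
    · simp only [A, if_neg hx]
      exact fun y hy => hy.2
  let Conf : P → Set P := fun p => {p} ∪ {y | (p < y ∨ y < p) ∧ y ∈ S} ∪
    ⋃ s ∈ {y | (p < y ∨ y < p) ∧ y ∈ S}, {y | (s < y ∨ y < s) ∧ y ∈ S}
  have hConf : ∀ p ∈ S, (Conf p).Finite := by
    intro p hp
    have h1 := (hS2 p).1 hp
    refine ((finite_singleton p).union h1).union (h1.biUnion ?_)
    rintro s ⟨-, hs⟩
    exact (hS2 s).1 hs
  obtain ⟨f, hf⟩ := exists_surjective_nat P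
  let e : ℕ → P := fun n => f (Nat.unpair n).1
  obtain ⟨g, hg⟩ := rec_exists (I := ℕ) (P := P)
    (fun n g v => v ∈ A (e n) ∧ ∀ m, m < n → g m ∈ S → v ∉ Conf (g m))
    (by
      intro n g g' v hgg hv
      refine ⟨hv.1, fun m hm hmS => ?_⟩
      rw [← hgg m hm] at hmS ⊢
      exact hv.2 m hm hmS)
    (by
      intro n g
      have hfin : (⋃ m ∈ {m | m < n ∧ g m ∈ S}, Conf (g m)).Finite := by
        refine Finite.biUnion ((finite_lt_nat n).subset fun m hm => hm.1) ?_
        intro m hm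
        exact hConf _ hm.2
      obtain ⟨v, hv1, hv2⟩ := ((hAinf (e n)).diff hfin).nonempty
      refine ⟨v, hv1, fun m hm hmS hv => hv2 ?_⟩
      exact mem_biUnion (show m ∈ {m | m < n ∧ g m ∈ S} from ⟨hm, hmS⟩) hv)
  have hgS : ∀ n, g n ∈ S := fun n => hAS _ (hg n).1
  have hgC : ∀ m n, m < n → g n ∉ Conf (g m) := fun m n h => (hg n).2 m h (hgS m)
  have hinj : Function.Injective g := by
    intro m n hmn
    by_contra hne
    rcases lt_or_gt_of_ne hne with h | h
    · exact hgC m n h (Or.inl (Or.inl hmn.symm))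
    · exact hgC n m h (Or.inl (Or.inl hmn))
  have hconf2 : ∀ s ∈ S, ∀ p q, q ∈ S → p ∈ S → (s ≤ p ∨ p ≤ s) → (s ≤ q ∨ q ≤ s) →
      q ∈ Conf p := by
    intro s hs p q hqS hpS hp hq
    by_cases hpq : q = p
    · exact Or.inl (Or.inl hpq)
    by_cases hsp : s = p
    · subst hsp
      refine Or.inl (Or.inr ⟨?_, hqS⟩)
      rcases hq with h | h
      · exact Or.inl (lt_of_le_of_ne h (Ne.symm hpq))
      · exact Or.inr (lt_of_le_of_ne h hpq)
    by_cases hsq : s = q
    · subst hsq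
      refine Or.inl (Or.inr ⟨?_, hqS⟩)
      rcases hp with h | h
      · exact Or.inr (lt_of_le_of_ne h hpq)
      · exact Or.inl (lt_of_le_of_ne h (Ne.symm hpq))
    · right
      have h1 : p < s ∨ s < p := by
        rcases hp with h | h
        · exact Or.inr (lt_of_le_of_ne h hsp)
        · exact Or.inl (lt_of_le_of_ne h (Ne.symm hsp))
      have h2 : s < q ∨ q < s := by
        rcases hq with h | h
        · exact Or.inl (lt_of_le_of_ne h hsq)
        · exact Or.inr (lt_of_le_of_ne h (Ne.symm hsq))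
      exact mem_biUnion (show s ∈ {y | (p < y ∨ y < p) ∧ y ∈ S} from ⟨h1, hs⟩) ⟨h2, hqS⟩
  have hin : ∀ s ∈ S, {h | h ∈ range g ∧ (s ≤ h ∨ h ≤ s)}.Subsingleton := by
    rintro s hs p ⟨⟨m, rfl⟩, hp⟩ q ⟨⟨n, rfl⟩, hq⟩
    by_contra hne
    have hmn : m ≠ n := fun h => hne (by rw [h])
    rcases lt_or_gt_of_ne hmn with h | h
    · exact hgC m n h (hconf2 s hs _ _ (hgS n) (hgS m) hp hq)
    · exact hgC n m h (hconf2 s hs _ _ (hgS m) (hgS n) hq hp)
  refine ⟨range g, infinite_range_of_injective hinj, ?_, ?_⟩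
  · rintro x ⟨n, rfl⟩
    exact hin _ (hgS n)
  · intro x
    by_cases hx : x ∈ S
    · exact Or.inl (hin x hx)
    · right
      obtain ⟨k, hk⟩ := hf x
      have hinf : (range fun l : ℕ => g (Nat.pair k l)).Infinite := by
        apply infinite_range_of_injective
        intro a b hab
        have h1 := hinj hab
        exact (Nat.pair_eq_pair.1 h1).2
      refine hinf.mono ?_
      rintro _ ⟨l, rfl⟩
      refine ⟨⟨_, rfl⟩, ?_⟩
      have h1 := (hg (Nat.pair k l)).1
      have h2 : e (Nat.pair k l) = x := by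
        simp only [e, Nat.unpair_pair]
        exact hk
      rw [h2] at h1
      simp only [A, if_neg hx] at h1
      rcases h1.1 with h3 | h3
      · exact Or.inl h3.le
      · exact Or.inr h3.le

end Pool.Agent.Helper781.Countable
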