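import Mathlib

set_option autoImplicit false

open Cardinal Set

namespace Pool.Agent.Helper781.Kernel

variable {P I : Type}

/-- `q` is small with respect to `A` along the relation `r`. -/
def Small [LinearOrder I] (R : I → (P → I) → Prop) (r : P → P → Prop) (A : Set (P × I))
    (q : P × I) : Prop :=
  ∃ ρ : P → I, R q.2 ρ ∧ ∀ y, r q.1 y → ∀ ξ, q.2 ≤ ξ → (y, ξ) ∈ A → ρ y ≤ q.2 ∨ ρ y < ξ

theorem Small.anti [LinearOrder I] {R : I → (P → I) → Prop} {r : P → P → Prop}
    {A B : Set (P × I)} (h : A ⊆ B) {q : P × I} (hq : Small R r B q) : Small R r A q := by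
  obtain ⟨ρ, hρ, h2⟩ := hq
  exact ⟨ρ, hρ, fun y hy ξ hξ hA => h2 y hy ξ hξ (h hA)⟩

theorem fact [LinearOrder I] {R : I → (P → I) → Prop} {r : P → P → Prop}
    (hR : ∀ θ θ' ρ, θ ≤ θ' → R θ ρ → R θ' ρ)
    (hr : ∀ a b c, r a b → r b c → r a c) (wf : WellFounded (fun a b => r b a))
    {A S : Set (P × I)} (h : ∀ q ∈ A, q ∉ S → ¬ Small R r A q) :
    ∀ q ∈ A, q ∉ S → ¬ Small R r S q := by
  have key : ∀ x : P, ∀ θ : I, (x, θ) ∈ A → (x, θ) ∉ S → ¬ Small R r S (x, θ) := by
    intro x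
    induction x using wf.induction with
    | _ x ih =>
      intro θ hA hS hsm
      obtain ⟨ρ, hρ, h2⟩ := hsm
      refine h _ hA hS ⟨ρ, hρ, ?_⟩
      intro y hy ξ hξ hyA
      by_cases hyS : (y, ξ) ∈ S
      · exact h2 y hy ξ hξ hyS
      · by_contra hcon
        refine ih y hy ξ hyA hyS ⟨ρ, hR θ ξ ρ hξ hρ, ?_⟩
        intro z hz ζ hζ hzS
        rcases h2 z (hr _ _ _ hy hz) ζ (le_trans hξ hζ) hzS with h3 | h3
        · exact Or.inl (le_trans h3 hξ)
        · exact Or.inr h3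
  intro q
  exact key q.1 q.2

theorem kernel [LinearOrder I] {R : I → (P → I) → Prop} {r s : P → P → Prop}
    (hR : ∀ θ θ' ρ, θ ≤ θ' → R θ ρ → R θ' ρ)
    (hr : ∀ a b c, r a b → r b c → r a c) (wr : WellFounded (fun a b => r b a))
    (hs : ∀ a b c, s a b → s b c → s a c) (ws : WellFounded (fun a b => s b a)) :
    ∃ S : Set (P × I), ∀ q, q ∈ S ↔ Small R r S q ∧ Small R s S q := by
  let B : Set (P × I) → Set (P × I) := fun A => {a | a ∈ A ∧ ¬ Small R r A a}ᶜ
  let C : Set (P × I) → Set (P × I) := fun A => {a | a ∈ A ∧ ¬ Small R s A a}ᶜ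
  have hB : ∀ A A', A ⊆ A' → B A' ⊆ B A := by
    intro A A' h a ha ha'
    exact ha ⟨h ha'.1, fun hs => ha'.2 (hs.anti h)⟩
  have hC : ∀ A A', A ⊆ A' → C A' ⊆ C A := by
    intro A A' h a ha ha'
    exact ha ⟨h ha'.1, fun hs => ha'.2 (hs.anti h)⟩
  let f : Set (P × I) →o Set (P × I) := ⟨fun A => C (B A), fun A A' h => hC _ _ (hB _ _ h)⟩
  let A := OrderHom.lfp f
  have hA : C (B A) = A := OrderHom.map_lfp f
  refine ⟨A ∩ B A, fun q => ?_⟩
  have hcov : q ∈ A ∨ q ∈ B A := by
    by_contra hcon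
    push Not at hcon
    apply hcon.1
    rw [← hA]
    intro h
    exact hcon.2 h.1
  constructor
  · rintro ⟨h1, h2⟩
    constructor
    · have : Small R r A q := by
        by_contra h3
        exact h2 ⟨h1, h3⟩
      exact this.anti inter_subset_left
    · have : Small R s (B A) q := by
        by_contra h3
        have h1' := h1
        rw [← hA] at h1'
        exact h1' ⟨h2, h3⟩
      exact this.anti inter_subset_right
  · rintro ⟨h1, h2⟩
    by_contra hq
    rcases hcov with hqA | hqB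
    · refine fact (S := A ∩ B A) hR hr wr (A := A) ?_ q hqA hq h1
      intro p hpA hpS hsm
      apply hpS
      refine ⟨hpA, ?_⟩
      intro h
      exact h.2 hsm
    · refine fact (S := A ∩ B A) hR hs ws (A := B A) ?_ q hqB hq h2
      intro p hpB hpS hsm
      apply hpS
      refine ⟨?_, hpB⟩
      rw [← hA]
      intro h
      exact h.2 hsm

end Pool.Agent.Helper781.Kernel
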