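import Mathlib
import Pool.Agent.Helper781.Kernel
import Pool.Agent.Helper781.Closure
import Pool.Agent.Helper781.Build

set_option autoImplicit false

open Cardinal Set

namespace Pool.Agent.Helper781.Main

open Pool.Agent.Helper781.Kernel Pool.Agent.Helper781.Closure Pool.Agent.Helper781.Build

section index

variable {I : Type} [LinearOrder I] [WellFoundedLT I]

/-- size of the level -/
noncomputable def cc (ξ : I) : Cardinal.{0} := max #(Iic ξ) ℵ₀

omit [WellFoundedLT I] in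
theorem aleph0_le_cc (ξ : I) : ℵ₀ ≤ cc ξ := le_max_right _ _

omit [WellFoundedLT I] in
theorem Iic_le_cc (ξ : I) : #(Iic ξ) ≤ cc ξ := le_max_left _ _

omit [WellFoundedLT I] in
theorem cc_mono {ξ ζ : I} (h : ξ ≤ ζ) : cc ξ ≤ cc ζ :=
  max_le_max (mk_le_mk_of_subset (Iic_subset_Iic.2 h)) le_rfl

omit [WellFoundedLT I] in
theorem Iic_eq (ξ : I) : #(Iic ξ) ≤ #(Iio ξ) + 1 := by
  rw [← Iio_insert]
  exact mk_insert_le

omit [WellFoundedLT I] in
theorem cc_le_Iio {θ d : I} (h : cc θ < cc d) : cc d ≤ #(Iio d) := by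
  have h1 : ℵ₀ < cc d := lt_of_le_of_lt (aleph0_le_cc θ) h
  have h2 : ℵ₀ < #(Iic d) := by
    unfold cc at h1
    rcases lt_max_iff.1 h1 with h | h
    · exact h
    · exact (lt_irrefl _ h).elim
  have h3 : cc d = #(Iic d) := max_eq_left h2.le
  rw [h3]
  have h4 : ℵ₀ ≤ #(Iio d) := by
    by_contra hcon
    push Not at hcon
    have := lt_of_lt_of_le h2 (Iic_eq d)
    have h5 : #(Iio d) + 1 < ℵ₀ := add_lt_aleph0 hcon one_lt_aleph0
    exact (lt_asymm this h5).elim
  refine (Iic_eq d).trans ?_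
  rw [add_one_eq h4]

theorem succ_le_level (hI : ∀ ξ : I, cc ξ < #I) (ξ : I) :
    Order.succ (cc ξ) ≤ #{ζ : I | cc ζ ≤ cc ξ} := by
  rw [Order.succ_le_iff]
  by_contra hcon
  push Not at hcon
  have hne : ({ζ : I | cc ζ ≤ cc ξ}ᶜ : Set I).Nonempty := by
    by_contra h
    rw [not_nonempty_iff_eq_empty, compl_empty_iff] at h
    rw [h, mk_univ] at hcon
    exact (not_lt.2 hcon) (hI ξ)
  have wf : WellFounded ((· < ·) : I → I → Prop) := wellFounded_lt
  let z := wf.min _ hne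
  have hz : z ∈ ({ζ : I | cc ζ ≤ cc ξ}ᶜ : Set I) := wf.min_mem _ hne
  have hsub : Iio z ⊆ {ζ : I | cc ζ ≤ cc ξ} := by
    intro y hy
    by_contra h
    exact wf.not_lt_min _ (x := y) h hy
  apply hz
  have h1 : #(Iio z) ≤ cc ξ := (mk_le_mk_of_subset hsub).trans hcon
  refine max_le ?_ (aleph0_le_cc ξ)
  refine (Iic_eq z).trans ?_
  refine (add_le_add h1 (one_le_aleph0.trans (aleph0_le_cc ξ))).trans ?_
  rw [add_eq_self (aleph0_le_cc ξ)]

end index


theorem countable_of_initial {I : Type} [LinearOrder I] {T : Set I}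
    (h : ∀ d ∈ T, {ζ | ζ < d ∧ ζ ∈ T}.Finite) : T.Countable := by
  let f : I → ℕ := fun d => {ζ | ζ < d ∧ ζ ∈ T}.ncard
  have hmono : ∀ d ∈ T, ∀ e ∈ T, d < e → f d < f e := by
    intro d hd e he hde
    apply Set.ncard_lt_ncard _ (h e he)
    refine ⟨fun ζ hζ => ⟨hζ.1.trans hde, hζ.2⟩, ?_⟩
    intro hcon
    exact lt_irrefl d (hcon ⟨hde, hd⟩).1
  have hinj : InjOn f T := by
    intro d hd e he hf
    rcases lt_trichotomy d e with h1 | h1 | h1
    · exact absurd hf (hmono d hd e he h1).ne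
    · exact h1
    · exact absurd hf (hmono e he d hd h1).ne'
  exact Set.countable_of_injective_of_countable_image hinj (Set.to_countable _)

section rank

variable {P I : Type} [LinearOrder I]

/-- the family of admissible rank functions above a level -/
def RR (θ : I) (ρ : P → I) : Prop := ∀ ξ, θ ≤ ξ → #{y | ρ y ≤ ξ} ≤ cc ξ

theorem RR.mono (θ θ' : I) (ρ : P → I) (h : θ ≤ θ') (hρ : RR θ ρ) : RR θ' ρ :=
  fun ξ hξ => hρ ξ (le_trans h hξ)

theorem RR_min {θ : I} {ρ σ : P → I} (hρ : RR θ ρ) (hσ : RR θ σ) :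
    RR θ (fun y => min (ρ y) (σ y)) := by
  intro ξ hξ
  have hsub : {y | min (ρ y) (σ y) ≤ ξ} ⊆ {y | ρ y ≤ ξ} ∪ {y | σ y ≤ ξ} := by
    intro y hy
    exact min_le_iff.1 hy
  exact (mk_le_mk_of_subset hsub).trans (union_le (aleph0_le_cc ξ) (hρ ξ hξ) (hσ ξ hξ))

theorem inj_RR {ι : P → I} (hι : Function.Injective ι) (ξ : I) : #{y | ι y ≤ ξ} ≤ cc ξ := by
  refine le_trans ?_ (Iic_le_cc ξ)
  exact mk_le_of_injective (f := fun y : {y | ι y ≤ ξ} => (⟨ι y.1, y.2⟩ : Iic ξ))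
    (fun a b hab => Subtype.ext (hι (congrArg Subtype.val hab)))

/-- the auxiliary rank function of a set -/
theorem exists_Z [WellFoundedLT I] (hI : ∀ ξ : I, cc ξ < #I) {ι : P → I}
    (hι : Function.Injective ι) (A : Set P) (ξ : I) :
    ∃ Z : P → I, RR ξ Z ∧ (#A ≤ cc ξ → ∀ y ∈ A, Z y ≤ ξ) ∧
      (cc ξ < #A → ∃ E ⊆ A, #E = Order.succ (cc ξ) ∧ ∀ y ∈ E, cc (Z y) ≤ cc ξ) := by
  classical
  by_cases hA : #A ≤ cc ξ
  · refine ⟨fun y => if y ∈ A then ξ else ι y, ?_, ?_, ?_⟩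
    · intro ζ hζ
      have hsub : {y | (if y ∈ A then ξ else ι y) ≤ ζ} ⊆ A ∪ {y | ι y ≤ ζ} := by
        intro y hy
        by_cases hyA : y ∈ A
        · exact Or.inl hyA
        · right
          simpa [hyA] using hy
      refine (mk_le_mk_of_subset hsub).trans ?_
      exact union_le (aleph0_le_cc ζ) (hA.trans (cc_mono hζ)) (inj_RR hι ζ)
    · intro _ y hy
      simp [hy]
    · intro h
      exact absurd hA (not_le.2 h)
  · push Not at hA
    obtain ⟨E, hEA, hE⟩ := le_mk_iff_exists_subset.1 (Order.succ_le_of_lt hA)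
    have hle : #E ≤ #{ζ : I | cc ζ ≤ cc ξ} := by
      rw [hE]
      exact succ_le_level hI ξ
    obtain ⟨g⟩ := (Cardinal.le_def _ _).1 hle
    refine ⟨fun y => if h : y ∈ E then (g ⟨y, h⟩).1 else ι y, ?_, ?_, ?_⟩
    · intro ζ hζ
      have hsub : {y | (if h : y ∈ E then (g ⟨y, h⟩).1 else ι y) ≤ ζ} ⊆
          {y | ∃ h : y ∈ E, (g ⟨y, h⟩).1 ≤ ζ} ∪ {y | ι y ≤ ζ} := by
        intro y hy
        by_cases hyA : y ∈ E
        · left
          refine ⟨hyA, ?_⟩
          simpa [hyA] using hy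
        · right
          simpa [hyA] using hy
      refine (mk_le_mk_of_subset hsub).trans ?_
      refine union_le (aleph0_le_cc ζ) ?_ (inj_RR hι ζ)
      refine le_trans ?_ (Iic_le_cc ζ)
      refine mk_le_of_injective
        (f := fun y : {y | ∃ h : y ∈ E, (g ⟨y, h⟩).1 ≤ ζ} =>
          (⟨(g ⟨y.1, y.2.choose⟩).1, y.2.choose_spec⟩ : Iic ζ)) ?_
      intro a b hab
      have h1 := congrArg Subtype.val hab
      have h2 := g.injective (Subtype.ext h1)
      have h3 : a.1 = b.1 := congrArg (fun z : E => z.1) h2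
      exact Subtype.ext h3
    · intro h
      exact absurd h (not_le.2 hA)
    · intro _
      refine ⟨E, hEA, hE, ?_⟩
      intro y hy
      simp only [hy, dif_pos]
      exact (g ⟨y, hy⟩).2

end rank


section main

variable {P I : Type} [PartialOrder P] [WellFoundedLT P] [WellFoundedGT P]
  [LinearOrder I] [WellFoundedLT I]

/-- comparability of distinct elements -/
def NN (x y : P) : Prop := x < y ∨ y < x

omit [WellFoundedLT P] [WellFoundedGT P] in
theorem NN.symm {x y : P} (h : NN x y) : NN y x := Or.symm h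

omit [WellFoundedLT I] in
/-- the levelled kernel -/
theorem levelled_kernel : ∃ S : Set (P × I), ∀ x θ, (x, θ) ∈ S ↔
    ∃ ρ : P → I, RR θ ρ ∧ ∀ y, NN x y → ∀ ξ, θ ≤ ξ → (y, ξ) ∈ S → ρ y ≤ θ ∨ ρ y < ξ := by
  obtain ⟨S, hS⟩ := kernel (P := P) (I := I) (R := RR) (r := fun a b => a < b)
    (s := fun a b => b < a) RR.mono
    (fun a b c h1 h2 => lt_trans h1 h2) wellFounded_gt
    (fun a b c h1 h2 => lt_trans h2 h1) wellFounded_lt
  refine ⟨S, fun x θ => ?_⟩
  rw [hS]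
  constructor
  · rintro ⟨⟨ρ, hρ, h1⟩, ⟨σ, hσ, h2⟩⟩
    refine ⟨fun y => min (ρ y) (σ y), RR_min hρ hσ, ?_⟩
    intro y hy ξ hξ hyS
    rcases hy with hy | hy
    · rcases h1 y hy ξ hξ hyS with h | h
      · exact Or.inl ((min_le_left _ _).trans h)
      · exact Or.inr ((min_le_left _ _).trans_lt h)
    · rcases h2 y hy ξ hξ hyS with h | h
      · exact Or.inl ((min_le_right _ _).trans h)
      · exact Or.inr ((min_le_right _ _).trans_lt h)
  · rintro ⟨ρ, hρ, h⟩
    exact ⟨⟨ρ, hρ, fun y hy => h y (Or.inl hy)⟩, ⟨ρ, hρ, fun y hy => h y (Or.inr hy)⟩⟩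

theorem main_uncountable [Nonempty P] {ι : P → I} (hι : Function.Injective ι)
    (hI : ∀ ξ : I, cc ξ < #I) (hP : ∀ ξ : I, cc ξ < #P) :
    ∃ H : Set P, H.Infinite ∧ (∀ x ∈ H, {h | h ∈ H ∧ (x ≤ h ∨ h ≤ x)}.Subsingleton) ∧
      (∀ x : P, {h | h ∈ H ∧ (x ≤ h ∨ h ≤ x)}.Subsingleton ∨
      {h | h ∈ H ∧ (x ≤ h ∨ h ≤ x)}.Infinite) := by
  classical
  obtain ⟨S', hS'⟩ := levelled_kernel (P := P) (I := I)
  have hmono : ∀ x θ θ', θ ≤ θ' → (x, θ) ∈ S' → (x, θ') ∈ S' := by
    intro x θ θ' h hx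
    rw [hS'] at hx ⊢
    obtain ⟨ρ, hρ, h1⟩ := hx
    refine ⟨ρ, RR.mono _ _ _ h hρ, ?_⟩
    intro y hy ξ hξ hyS
    rcases h1 y hy ξ (h.trans hξ) hyS with h2 | h2
    · exact Or.inl (h2.trans h)
    · exact Or.inr h2
  have hfam : ∀ x ξ, ∃ ρ : P → I, RR ξ ρ ∧
      ((x, ξ) ∈ S' → ∀ y, NN x y → ∀ ζ, ξ ≤ ζ → (y, ζ) ∈ S' → ρ y ≤ ξ ∨ ρ y < ζ) ∧
      (#{y | NN x y ∧ (y, ξ) ∈ S'} ≤ cc ξ → ∀ y, NN x y → (y, ξ) ∈ S' → ρ y ≤ ξ) ∧
      (cc ξ < #{y | NN x y ∧ (y, ξ) ∈ S'} → ∃ E ⊆ {y | NN x y ∧ (y, ξ) ∈ S'},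
        #E = Order.succ (cc ξ) ∧ ∀ y ∈ E, cc (ρ y) ≤ cc ξ) := by
    intro x ξ
    obtain ⟨Z, hZ, hZ1, hZ2⟩ := exists_Z hI hι {y | NN x y ∧ (y, ξ) ∈ S'} ξ
    by_cases hx : (x, ξ) ∈ S'
    · obtain ⟨ρ, hρ, h1⟩ := (hS' x ξ).1 hx
      refine ⟨fun y => min (ρ y) (Z y), RR_min hρ hZ, ?_, ?_, ?_⟩
      · intro _ y hy ζ hζ hyS
        rcases h1 y hy ζ hζ hyS with h | h
        · exact Or.inl ((min_le_left _ _).trans h)
        · exact Or.inr ((min_le_left _ _).trans_lt h)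
      · intro h y hy hyS
        exact (min_le_right _ _).trans (hZ1 h y ⟨hy, hyS⟩)
      · intro h
        obtain ⟨E, h2, h3, h4⟩ := hZ2 h
        exact ⟨E, h2, h3, fun y hy => (cc_mono (min_le_right _ _)).trans (h4 y hy)⟩
    · exact ⟨Z, hZ, fun h => absurd h hx, fun h y hy hyS => hZ1 h y ⟨hy, hyS⟩, hZ2⟩
  choose R hR hR1 hR2 hR3 using hfam
  obtain ⟨τ, hτ, hτR⟩ := closure_lemma (fun ξ : I => cc ξ) aleph0_le_cc Iic_le_cc ι (inj_RR hι) R
    (fun x ξ ζ h => hR x ξ ζ h)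
  let S : Set P := {s | (s, τ s) ∈ S'}
  have hcross : ∀ s ∈ S, ∀ y ∈ S, NN s y → τ s ≤ τ y → τ s = τ y := by
    intro s hs y hy hsy hle
    apply le_antisymm hle
    rcases hR1 s (τ s) hs y hsy (τ y) hle hy with h | h
    · refine (hτR s (τ s) y).trans ?_
      exact max_le le_rfl (max_le le_rfl h)
    · by_contra hcon
      push Not at hcon
      have h1 := hτR s (τ s) y
      have h2 : max (τ s) (max (τ s) (R s (τ s) y)) < τ y := max_lt hcon (max_lt hcon h)
      exact absurd h1 (not_le.2 h2)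
  have hcross' : ∀ s ∈ S, ∀ y ∈ S, NN s y → τ s = τ y := by
    intro s hs y hy hsy
    rcases le_total (τ s) (τ y) with h | h
    · exact hcross s hs y hy hsy h
    · exact (hcross y hy s hs hsy.symm h).symm
  obtain ⟨h, hh⟩ := build (fun x y : P => NN x y) S τ
  let H : Set P := {p | p ∈ S ∧ h (τ p) = p}
  have hHmem : ∀ y ∈ S, h (τ y) ∈ H ∧ τ (h (τ y)) = τ y := by
    intro y hy
    obtain ⟨h1, h2, -⟩ := hh (τ y) ⟨y, hy, rfl⟩
    refine ⟨⟨h1, ?_⟩, h2⟩
    rw [h2]
  have hin : ∀ x ∈ S, {p | p ∈ H ∧ (x ≤ p ∨ p ≤ x)}.Subsingleton := by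
    intro x hx
    have key : ∀ p, p ∈ H → (x ≤ p ∨ p ≤ x) → p = h (τ x) := by
      intro p hp hxp
      by_cases hpx : p = x
      · subst hpx
        exact hp.2.symm
      · have hN : NN x p := by
          rcases hxp with h1 | h1
          · exact Or.inl (lt_of_le_of_ne h1 (Ne.symm hpx))
          · exact Or.inr (lt_of_le_of_ne h1 hpx)
        rw [hcross' x hx p hp.1 hN]
        exact hp.2.symm
    intro p hp q hq
    rw [key p hp.1 hp.2, key q hq.1 hq.2]
  have hout : ∀ x, x ∉ S → {p | p ∈ H ∧ NN x p}.Infinite := by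
    intro x hxS hfin
    set θ : I := τ x with hθ
    let D : Set I := {d | θ ≤ d ∧ ∃ y, y ∈ S ∧ τ y = d ∧ NN x y}
    have hcand : ∀ d ∈ D, Cand (fun x y : P => NN x y) S τ h d x := by
      rintro d ⟨h1, y, h2, h3, h4⟩
      refine ⟨h1, ?_, y, h2, h3, h4⟩
      refine (hfin.image τ).subset ?_
      rintro ζ ⟨h5, h6, h7, h8⟩
      refine ⟨h ζ, ⟨⟨h6, ?_⟩, h8⟩, h7⟩
      rw [h7]
    have hDsub : D ⊆ ⋃ x' ∈ {x' : P | τ x' ≤ θ},
        {d | d ∈ D ∧ Cand (fun x y : P => NN x y) S τ h d x' ∧ NN x' (h d)} := by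
      intro d hd
      obtain ⟨h1, y, h2, h3, h4⟩ := hd
      obtain ⟨-, -, h5⟩ := hh d ⟨y, h2, h3⟩
      obtain ⟨x', hx', h6, h7⟩ := h5 x (hcand d ⟨h1, y, h2, h3, h4⟩)
      exact mem_biUnion (show x' ∈ {x' : P | τ x' ≤ θ} from h6) ⟨⟨h1, y, h2, h3, h4⟩, hx', h7⟩
    have hDcard : #D ≤ cc θ := by
      refine (mk_le_mk_of_subset hDsub).trans ?_
      refine biUnion_le _ _ _ (aleph0_le_cc θ) (hτ θ) ?_
      intro x' _
      refine le_trans ?_ (aleph0_le_cc θ)
      rw [le_aleph0_iff_set_countable]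
      apply countable_of_initial
      rintro d ⟨hdD, hd1, hd2⟩
      refine hd1.2.1.subset ?_
      rintro ζ ⟨h1, h2, h3, h4⟩
      obtain ⟨-, y, h5, h6, -⟩ := h2
      obtain ⟨h7, h8, -⟩ := hh ζ ⟨y, h5, h6⟩
      exact ⟨h1, h7, h8, h4⟩
    have hstep1 : ∀ ξ, θ ≤ ξ → #{y | NN x y ∧ (y, ξ) ∈ S'} ≤ cc ξ := by
      intro ξ hξ
      by_contra hcon
      push Not at hcon
      obtain ⟨E, hE1, hE2, hE3⟩ := hR3 x ξ hcon
      have hsub : E ⊆ {y | τ y ≤ ξ} ∪ ⋃ d ∈ D, {y | τ y = d ∧ cc d ≤ cc ξ} := by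
        intro y hy
        by_cases hyξ : τ y ≤ ξ
        · exact Or.inl hyξ
        · right
          push Not at hyξ
          have hyS : y ∈ S := hmono y ξ (τ y) hyξ.le (hE1 hy).2
          have hcc : cc (τ y) ≤ cc ξ := by
            have h1 := hτR x ξ y
            rcases le_max_iff.1 h1 with h2 | h2
            · exact cc_mono (h2.trans hξ)
            · rcases le_max_iff.1 h2 with h3 | h3
              · exact cc_mono h3
              · exact (cc_mono h3).trans (hE3 y hy)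
          exact mem_biUnion (show τ y ∈ D from ⟨hξ.trans hyξ.le, y, hyS, rfl, (hE1 hy).1⟩)
            ⟨rfl, hcc⟩
      have h1 : #E ≤ cc ξ := by
        refine (mk_le_mk_of_subset hsub).trans ?_
        refine union_le (aleph0_le_cc ξ) (hτ ξ) ?_
        refine biUnion_le _ _ _ (aleph0_le_cc ξ) (hDcard.trans (cc_mono hξ)) ?_
        intro d _
        by_cases hd : cc d ≤ cc ξ
        · refine (mk_le_mk_of_subset ?_).trans ((hτ d).trans hd)
          rintro y ⟨hy, -⟩
          exact hy.le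
        · have : {y | τ y = d ∧ cc d ≤ cc ξ} = (∅ : Set P) := by
            ext y
            simp only [mem_ofPred_eq, mem_empty_iff_false, iff_false, not_and]
            intro _
            exact hd
          rw [this, Cardinal.mk_eq_zero]
          exact zero_le
      rw [hE2] at h1
      exact absurd h1 (not_le.2 (Order.lt_succ _))
    have hstep2 : ∀ ξ, θ ≤ ξ → ∀ y, NN x y → (y, ξ) ∈ S' → τ y ≤ ξ := by
      intro ξ hξ y hy hyS
      refine (hτR x ξ y).trans ?_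
      exact max_le hξ (max_le le_rfl (hR2 x ξ (hstep1 ξ hξ) y hy hyS))
    have hj : ∀ d : I, ∃ j : P → I, cc θ < cc d →
        (∀ y, τ y = d → j y < d) ∧ InjOn j {y | τ y = d} := by
      intro d
      by_cases hd : cc θ < cc d
      · have h1 : #{y | τ y = d} ≤ #(Iio d) := by
          refine (mk_le_mk_of_subset ?_).trans ((hτ d).trans (cc_le_Iio hd))
          intro y hy
          exact (show τ y = d from hy).le
        obtain ⟨g⟩ := (Cardinal.le_def _ _).1 h1
        refine ⟨fun y => if hy : τ y = d then (g ⟨y, hy⟩).1 else d, fun _ => ⟨?_, ?_⟩⟩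
        · intro y hy
          simp only [hy, dif_pos]
          exact (g ⟨y, hy⟩).2
        · intro y hy z hz hyz
          have hy' : τ y = d := hy
          have hz' : τ z = d := hz
          simp only [hy', hz', dif_pos] at hyz
          have h2 := g.injective (Subtype.ext hyz)
          exact congrArg (fun w : {y | τ y = d} => w.1) h2
      · exact ⟨fun _ => d, fun h => absurd h hd⟩
    choose j hj using hj
    apply hxS
    show (x, θ) ∈ S'
    rw [hS']
    refine ⟨fun y => if NN x y ∧ y ∈ S ∧ θ < τ y then (if cc (τ y) ≤ cc θ then θ else j (τ y) y)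
      else τ y, ?_, ?_⟩
    · intro ζ hζ
      have hsub : {y | (if NN x y ∧ y ∈ S ∧ θ < τ y then
          (if cc (τ y) ≤ cc θ then θ else j (τ y) y) else τ y) ≤ ζ} ⊆
          {y | τ y ≤ ζ} ∪ ⋃ d ∈ D, {y | τ y = d ∧ (cc d ≤ cc θ ∨ (cc θ < cc d ∧ j d y ≤ ζ))} := by
        intro y hy
        have hy' : (if NN x y ∧ y ∈ S ∧ θ < τ y then
          (if cc (τ y) ≤ cc θ then θ else j (τ y) y) else τ y) ≤ ζ := hy
        by_cases hc : NN x y ∧ y ∈ S ∧ θ < τ y
        · right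
          rw [if_pos hc] at hy'
          refine mem_biUnion (show τ y ∈ D from ⟨hc.2.2.le, y, hc.2.1, rfl, hc.1⟩) ⟨rfl, ?_⟩
          by_cases hc2 : cc (τ y) ≤ cc θ
          · exact Or.inl hc2
          · rw [if_neg hc2] at hy'
            exact Or.inr ⟨not_le.1 hc2, hy'⟩
        · left
          rw [if_neg hc] at hy'
          exact hy'
      refine (mk_le_mk_of_subset hsub).trans ?_
      refine union_le (aleph0_le_cc ζ) (hτ ζ) ?_
      refine biUnion_le _ _ _ (aleph0_le_cc ζ) (hDcard.trans (cc_mono hζ)) ?_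
      intro d _
      by_cases hd : cc d ≤ cc θ
      · refine (mk_le_mk_of_subset ?_).trans ((hτ d).trans (hd.trans (cc_mono hζ)))
        rintro y ⟨hy, -⟩
        exact hy.le
      · have hd' := not_le.1 hd
        refine le_trans ?_ (Iic_le_cc ζ)
        have hmaps : ∀ y ∈ {y | τ y = d ∧ (cc d ≤ cc θ ∨ (cc θ < cc d ∧ j d y ≤ ζ))},
            j d y ≤ ζ := by
          rintro y ⟨-, h1 | h1⟩
          · exact absurd h1 hd
          · exact h1.2
        refine mk_le_of_injective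
          (f := fun y : {y | τ y = d ∧ (cc d ≤ cc θ ∨ (cc θ < cc d ∧ j d y ≤ ζ))} =>
            (⟨j d y.1, hmaps y.1 y.2⟩ : Iic ζ)) ?_
        intro a b hab
        exact Subtype.ext ((hj d hd').2 a.2.1 b.2.1 (congrArg Subtype.val hab))
    · intro y hy ξ hξ hyS
      by_cases hc : NN x y ∧ y ∈ S ∧ θ < τ y
      · simp only [if_pos hc]
        by_cases hc2 : cc (τ y) ≤ cc θ
        · simp only [if_pos hc2]
          exact Or.inl le_rfl
        · simp only [if_neg hc2]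
          right
          exact lt_of_lt_of_le ((hj (τ y) (not_le.1 hc2)).1 y rfl) (hstep2 ξ hξ y hy hyS)
      · simp only [if_neg hc]
        by_cases hyS2 : y ∈ S
        · left
          by_contra hcon
          exact hc ⟨hy, hyS2, not_le.1 hcon⟩
        · right
          by_contra hcon
          exact hyS2 (hmono y ξ (τ y) (not_lt.1 hcon) hyS)
  refine ⟨H, ?_, fun x hx => hin x hx.1, ?_⟩
  · by_cases hS : ∃ x, x ∉ S
    · obtain ⟨x, hx⟩ := hS
      exact (hout x hx).mono fun p hp => hp.1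
    · push Not at hS
      intro hfin
      have hne : H.Nonempty := by
        obtain ⟨y⟩ := (inferInstance : Nonempty P)
        exact ⟨_, (hHmem y (hS y)).1⟩
      obtain ⟨m, hm, hmax⟩ := Set.exists_max_image H τ hfin hne
      have huniv : {y | τ y ≤ τ m} = (univ : Set P) := by
        ext y
        simp only [mem_ofPred_eq, mem_univ, iff_true]
        rw [← (hHmem y (hS y)).2]
        exact hmax _ (hHmem y (hS y)).1
      have h1 := hτ (τ m)
      rw [huniv, mk_univ] at h1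
      exact absurd h1 (not_le.2 (hP (τ m)))
  · intro x
    by_cases hx : x ∈ S
    · exact Or.inl (hin x hx)
    · right
      refine (hout x hx).mono ?_
      rintro p ⟨h1, h2⟩
      refine ⟨h1, ?_⟩
      rcases h2 with h2 | h2
      · exact Or.inl h2.le
      · exact Or.inr h2.le

end main

theorem uncountable_case {P : Type} [PartialOrder P] [WellFoundedLT P] [WellFoundedGT P]
    (hP : ¬ Countable P) :
    ∃ H : Set P, H.Infinite ∧ (∀ x ∈ H, {h | h ∈ H ∧ (x ≤ h ∨ h ≤ x)}.Subsingleton) ∧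
      (∀ x : P, {h | h ∈ H ∧ (x ≤ h ∨ h ≤ x)}.Subsingleton ∨
      {h | h ∈ H ∧ (x ≤ h ∨ h ≤ x)}.Infinite) := by
  have hlt : ℵ₀ < #P := by
    by_contra h
    exact hP (mk_le_aleph0_iff.1 (not_lt.1 h))
  have : Nonempty P := by
    by_contra h
    rw [not_nonempty_iff] at h
    exact hP inferInstance
  let I := (#P).ord.ToType
  have hIP : #I = #P := mk_ord_toType _
  obtain ⟨g⟩ := (Cardinal.le_def _ _).1 hIP.ge
  have hcc : ∀ ξ : I, cc ξ < #P := by
    intro ξ
    refine max_lt ?_ hlt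
    refine (Iic_eq ξ).trans_lt ?_
    refine add_lt_of_lt hlt.le ?_ (one_lt_aleph0.trans hlt)
    have h := mk_Iio_lt ξ (by simp [I])
    rwa [hIP] at h
  exact main_uncountable (I := I) (ι := g) g.injective (fun ξ => by rw [hIP]; exact hcc ξ) hcc

end Pool.Agent.Helper781.Main
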